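import Mathlib

set_option autoImplicit false

namespace Pool.Agent.TH835.Maehara

open Matrix

/-- Trace identity behind the closure condition for Poncelet triangles. -/
lemma trace_zero_diag (Z W : Matrix (Fin 3) (Fin 3) ℝ) (d : Fin 3 → ℝ)
    (hZ : Zᵀ = Z) (hW : Wᵀ = W) (hZ0 : ∀ i, Z i i = 0) (hW0 : ∀ i, W i i = 0) :
    2 * trace ((Z * diagonal d * W * diagonal d) * (Z * diagonal d * W * diagonal d)) =
      (trace (Z * diagonal d * W * diagonal d)) ^ 2 := by
  have z10 : Z 1 0 = Z 0 1 := by conv_lhs => rw [← hZ]; simp [transpose_apply]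
  have z20 : Z 2 0 = Z 0 2 := by conv_lhs => rw [← hZ]; simp [transpose_apply]
  have z21 : Z 2 1 = Z 1 2 := by conv_lhs => rw [← hZ]; simp [transpose_apply]
  have w10 : W 1 0 = W 0 1 := by conv_lhs => rw [← hW]; simp [transpose_apply]
  have w20 : W 2 0 = W 0 2 := by conv_lhs => rw [← hW]; simp [transpose_apply]
  have w21 : W 2 1 = W 1 2 := by conv_lhs => rw [← hW]; simp [transpose_apply]
  have z00 := hZ0 0
  have z11 := hZ0 1
  have z22 := hZ0 2
  have w00 := hW0 0
  have w11 := hW0 1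
  have w22 := hW0 2
  set N := Z * diagonal d * W * diagonal d with hN
  have e : ∀ i j, N i j = (Z i 0 * d 0 * W 0 j + Z i 1 * d 1 * W 1 j + Z i 2 * d 2 * W 2 j) * d j := by
    intro i j
    rw [hN, mul_diagonal, mul_apply]
    simp only [mul_diagonal, Fin.sum_univ_three]
  simp only [trace, diag, mul_apply, Fin.sum_univ_three, e]
  simp only [z10, z20, z21, w10, w20, w21, z00, z11, z22, w00, w11, w22]
  ring

/-- If a triangle is inscribed in the conic `Q` and its sides are, via the pairing `L`, points of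
the conic `Q'`, then the closure condition holds. -/
lemma poncelet (X Y L Li Q Q' : Matrix (Fin 3) (Fin 3) ℝ) (d : Fin 3 → ℝ)
    (hd : ∀ i, d i ≠ 0) (hL : Lᵀ = L) (hLi : L * Li = 1) (hXY : X * L * Yᵀ = diagonal d)
    (hQ : Qᵀ = Q) (hQ' : Q'ᵀ = Q')
    (hX : ∀ i, (X * Q * Xᵀ) i i = 0) (hY : ∀ i, (Y * Q' * Yᵀ) i i = 0) :
    2 * trace ((Q * Li * Q' * Li) * (Q * Li * Q' * Li)) = (trace (Q * Li * Q' * Li)) ^ 2 := by
  have hDD : diagonal d * diagonal (fun i => (d i)⁻¹) = (1 : Matrix (Fin 3) (Fin 3) ℝ) := by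
    rw [diagonal_mul_diagonal]
    have : (fun i => d i * (d i)⁻¹) = fun _ => (1 : ℝ) := by
      funext i; exact mul_inv_cancel₀ (hd i)
    rw [this, diagonal_one]
  set Di := diagonal (fun i => (d i)⁻¹) with hDi
  have hDiT : Diᵀ = Di := by rw [hDi, diagonal_transpose]
  have hLiL : Li * L = 1 := by rw [mul_eq_one_comm]; exact hLi
  have h1 : X * (L * Yᵀ * Di) = 1 := by
    rw [← hDD, ← hXY]; simp only [Matrix.mul_assoc]
  have h2 : (L * Yᵀ * Di) * X = 1 := by rw [mul_eq_one_comm]; exact h1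
  have h3 : Yᵀ * Di * X = Li := by
    have : Li * ((L * Yᵀ * Di) * X) = Li := by rw [h2, Matrix.mul_one]
    rw [← this]
    calc Yᵀ * Di * X = (Li * L) * (Yᵀ * Di * X) := by rw [hLiL, Matrix.one_mul]
      _ = Li * ((L * Yᵀ * Di) * X) := by simp only [Matrix.mul_assoc]
  have hLiT : Liᵀ = Li := by
    have h4 : Liᵀ * L = 1 := by
      have := congrArg transpose hLi
      rwa [transpose_mul, hL, transpose_one] at this
    calc Liᵀ = Liᵀ * (L * Li) := by rw [hLi, Matrix.mul_one]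
      _ = (Liᵀ * L) * Li := by simp only [Matrix.mul_assoc]
      _ = Li := by rw [h4, Matrix.one_mul]
  have h5 : Xᵀ * Di * Y = Li := by
    have := congrArg transpose h3
    rw [transpose_mul, transpose_mul, transpose_transpose, hDiT, hLiT] at this
    rw [← this]; simp only [Matrix.mul_assoc]
  have hM : Q * Li * Q' * Li = (Q * Xᵀ * Di * (Y * Q' * Yᵀ) * Di) * X := by
    conv_lhs => rw [← h5]
    have : Q * (Xᵀ * Di * Y) * Q' * (Xᵀ * Di * Y) = Q * (Xᵀ * Di * Y) * Q' * (Yᵀ * Di * X) := by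
      rw [h5, h3]
    rw [this]; simp only [Matrix.mul_assoc]
  have hN : X * (Q * Xᵀ * Di * (Y * Q' * Yᵀ) * Di) = (X * Q * Xᵀ) * Di * (Y * Q' * Yᵀ) * Di := by
    simp only [Matrix.mul_assoc]
  have t1 : trace (Q * Li * Q' * Li) = trace ((X * Q * Xᵀ) * Di * (Y * Q' * Yᵀ) * Di) := by
    rw [hM, trace_mul_comm, hN]
  have t2 : trace ((Q * Li * Q' * Li) * (Q * Li * Q' * Li)) =
      trace (((X * Q * Xᵀ) * Di * (Y * Q' * Yᵀ) * Di) * ((X * Q * Xᵀ) * Di * (Y * Q' * Yᵀ) * Di)) := by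
    rw [hM]
    set R := Q * Xᵀ * Di * (Y * Q' * Yᵀ) * Di
    rw [← hN]
    calc trace (R * X * (R * X)) = trace ((R * X * R) * X) := by simp only [Matrix.mul_assoc]
      _ = trace (X * (R * X * R)) := trace_mul_comm _ _
      _ = trace (X * R * (X * R)) := by simp only [Matrix.mul_assoc]
  rw [t1, t2]
  apply trace_zero_diag
  · rw [transpose_mul, transpose_mul, transpose_transpose, hQ]; simp only [Matrix.mul_assoc]
  · rw [transpose_mul, transpose_mul, transpose_transpose, hQ']; simp only [Matrix.mul_assoc]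
  · exact hX
  · exact hY

end Pool.Agent.TH835.Maehara
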