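import Mathlib
import Pool.Agent.TH835.Poncelet

set_option autoImplicit false

namespace Pool.Agent.TH835.Maehara

open Matrix

/-- The closure condition fails. -/
lemma closure_pos (a c1 c2 κ ν k : ℝ) (hs : 0 < a * c1) (hκ : 0 < κ)
    (Q Li Q' : Matrix (Fin 3) (Fin 3) ℝ)
    (hQ : Q = !![1 + (c2 / c1) ^ 2, 0, -(ν * (c1 ^ 2 + c2 ^ 2) * (c1 + a) / c1);
      0, 1, -k; -(ν * (c1 ^ 2 + c2 ^ 2) * (c1 + a) / c1), -k, -(κ * a ^ 2 + 2 * κ * (a * c1))])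
    (hQ' : Q' = !![1, 0, ν * (c1 ^ 2 + c2 ^ 2 + a * c1);
      0, 1, k; ν * (c1 ^ 2 + c2 ^ 2 + a * c1), k, -(κ * (c1 ^ 2 + c2 ^ 2) + 2 * κ * (a * c1))])
    (hLi : Li = diagonal ![1, 1, -(2 / (2 * κ * (a * c1)))]) :
    (trace (Q * Li * Q' * Li)) ^ 2 < 2 * trace ((Q * Li * Q' * Li) * (Q * Li * Q' * Li)) := by
  have hc1 : c1 ≠ 0 := by rintro rfl; simp at hs
  have ha : a ≠ 0 := by rintro rfl; simp at hs
  have hκ0 : κ ≠ 0 := hκ.ne'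
  set N := Q * Li * Q' * Li with hN
  have hLi' : ∀ (A : Matrix (Fin 3) (Fin 3) ℝ) (i j : Fin 3),
      (A * Li) i j = A i j * (![1, 1, -(2 / (2 * κ * (a * c1)))] : Fin 3 → ℝ) j := by
    intro A i j; rw [hLi, mul_diagonal]
  have e : ∀ i j, N i j = (Q i 0 * Q' 0 j + Q i 1 * Q' 1 j +
      Q i 2 * (-(2 / (2 * κ * (a * c1)))) * Q' 2 j) *
        (![1, 1, -(2 / (2 * κ * (a * c1)))] : Fin 3 → ℝ) j := by
    intro i j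
    rw [hN, hLi', mul_apply]
    simp only [hLi', Fin.sum_univ_three]
    simp
  have key : (2 * κ * (a * c1)) ^ 2 / 16 * (2 * trace (N * N) - (trace N) ^ 2) =
      κ ^ 2 * ((c1 ^ 2 + c2 ^ 2) ^ 2 + 3 * (c1 ^ 2 + c2 ^ 2) * (a * c1) + 9 / 4 * (a * c1) ^ 2
        + a ^ 4 + (c1 ^ 2 + c2 ^ 2) * a ^ 2 + 3 * a ^ 2 * (a * c1))
      + κ * k ^ 2 * (a * c1 + a ^ 2 + (c1 ^ 2 + c2 ^ 2))
      + κ * ν ^ 2 * (c1 ^ 2 + c2 ^ 2) * ((c1 ^ 2 + c2 ^ 2) ^ 2 + 3 * (c1 ^ 2 + c2 ^ 2) * (a * c1)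
        + (c1 ^ 2 + c2 ^ 2) * a ^ 2 + 3 * (a * c1) ^ 2 + 3 * a ^ 2 * (a * c1) + a ^ 4) := by
    simp only [trace, diag, mul_apply, Fin.sum_univ_three, e]
    simp only [hQ, hQ', of_apply, cons_val', cons_val_zero, cons_val_one, cons_val,
      cons_val_fin_one]
    field_simp
    ring
  have hpos : 0 < κ ^ 2 * ((c1 ^ 2 + c2 ^ 2) ^ 2 + 3 * (c1 ^ 2 + c2 ^ 2) * (a * c1)
        + 9 / 4 * (a * c1) ^ 2
        + a ^ 4 + (c1 ^ 2 + c2 ^ 2) * a ^ 2 + 3 * a ^ 2 * (a * c1))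
      + κ * k ^ 2 * (a * c1 + a ^ 2 + (c1 ^ 2 + c2 ^ 2))
      + κ * ν ^ 2 * (c1 ^ 2 + c2 ^ 2) * ((c1 ^ 2 + c2 ^ 2) ^ 2 + 3 * (c1 ^ 2 + c2 ^ 2) * (a * c1)
        + (c1 ^ 2 + c2 ^ 2) * a ^ 2 + 3 * (a * c1) ^ 2 + 3 * a ^ 2 * (a * c1) + a ^ 4) := by
    set s := a * c1
    positivity
  rw [← key] at hpos
  have h16 : 0 < (2 * κ * (a * c1)) ^ 2 / 16 := by positivity
  have := (mul_pos_iff_of_pos_left h16).1 hpos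
  linarith

end Pool.Agent.TH835.Maehara
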