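import Mathlib
import Pool.Agent.TH835.MaeCore

set_option autoImplicit false

namespace Pool.Agent.TH835.Maehara

open Matrix

lemma core (y z y' z' δ : Fin 3 → ℝ) (a c1 c2 κ D0 D1 D2 lam : ℝ) (hs : 0 < a * c1)
    (hκ : 0 < κ) (hD0 : D0 = -lam * a) (hDC : c1 * D0 + c2 * D1 = lam * (c1 ^ 2 + c2 ^ 2))
    (hq : ∀ i, (c2 / c1 * y i) ^ 2 + y i ^ 2 + z i ^ 2
      - 2 * (-(c2 / c1 * y i) * D0 + y i * D1 + z i * D2) = κ * a ^ 2 + 2 * κ * (a * c1))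
    (hg : ∀ j, y' j ^ 2 + z' j ^ 2 + 2 * (y' j * D1 + z' j * D2) =
      κ * (c1 ^ 2 + c2 ^ 2) + 2 * κ * (a * c1))
    (hqg : ∀ i j, i ≠ j → 2 * (y i * y' j + z i * z' j) = 2 * κ * (a * c1))
    (hd : ∀ i, 2 * (y i * y' i + z i * z' i) = 2 * κ * (a * c1) - δ i)
    (hδ : ∀ i, δ i ≠ 0) : False := by
  have hc1 : c1 ≠ 0 := by rintro rfl; simp at hs
  have ha : a ≠ 0 := by rintro rfl; simp at hs
  have hκ0 : κ ≠ 0 := hκ.ne'
  have hG : 0 < c1 ^ 2 + c2 ^ 2 + a * c1 := by positivity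
  obtain ⟨ν, hν⟩ : ∃ ν, D1 = ν * (c1 ^ 2 + c2 ^ 2 + a * c1) :=
    ⟨D1 / (c1 ^ 2 + c2 ^ 2 + a * c1), (div_mul_cancel₀ _ hG.ne').symm⟩
  have hlam : lam = c2 * ν := by
    have h1 : lam * (c1 ^ 2 + c2 ^ 2 + a * c1) = c2 * ν * (c1 ^ 2 + c2 ^ 2 + a * c1) := by
      rw [hD0, hν] at hDC
      linarith
    exact mul_right_cancel₀ hG.ne' h1
  have hh : D1 - c2 / c1 * D0 = ν * (c1 ^ 2 + c2 ^ 2) * (c1 + a) / c1 := by
    rw [hD0, hν, hlam]; field_simp; ring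
  set X : Matrix (Fin 3) (Fin 3) ℝ := of fun i => ![y i, z i, 1] with hX
  set Y : Matrix (Fin 3) (Fin 3) ℝ := of fun i => ![y' i, z' i, 1] with hY
  set L : Matrix (Fin 3) (Fin 3) ℝ := diagonal ![1, 1, -(κ * (a * c1))] with hL
  set Li : Matrix (Fin 3) (Fin 3) ℝ := diagonal ![1, 1, -(2 / (2 * κ * (a * c1)))] with hLi
  set Q : Matrix (Fin 3) (Fin 3) ℝ :=
    !![1 + (c2 / c1) ^ 2, 0, -(ν * (c1 ^ 2 + c2 ^ 2) * (c1 + a) / c1);
      0, 1, -D2; -(ν * (c1 ^ 2 + c2 ^ 2) * (c1 + a) / c1), -D2,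
      -(κ * a ^ 2 + 2 * κ * (a * c1))] with hQ
  set Q' : Matrix (Fin 3) (Fin 3) ℝ :=
    !![1, 0, ν * (c1 ^ 2 + c2 ^ 2 + a * c1);
      0, 1, D2; ν * (c1 ^ 2 + c2 ^ 2 + a * c1), D2,
      -(κ * (c1 ^ 2 + c2 ^ 2) + 2 * κ * (a * c1))] with hQ'
  have hlt := closure_pos a c1 c2 κ ν D2 hs hκ Q Li Q' hQ hQ' hLi
  refine absurd (poncelet X Y L Li Q Q' (fun i => -(δ i) / 2) ?_ ?_ ?_ ?_ ?_ ?_ ?_ ?_) hlt.ne'
  · intro i; simp only [ne_eq, div_eq_zero_iff, neg_eq_zero]; push Not; exact ⟨hδ i, by norm_num⟩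
  · rw [hL, diagonal_transpose]
  · rw [hL, hLi, diagonal_mul_diagonal, ← diagonal_one]
    congr 1
    funext i
    fin_cases i
    · simp
    · simp
    · simp; field_simp
  · ext i j
    have e1 : (X * L * Yᵀ) i j = y i * y' j + z i * z' j - κ * (a * c1) := by
      rw [mul_apply]
      simp only [hL, mul_diagonal, Fin.sum_univ_three, hX, hY, transpose_apply, of_apply]
      simp
      ring
    rw [e1]
    by_cases hij : i = j
    · subst hij; rw [diagonal_apply_eq]; linarith [hd i]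
    · rw [diagonal_apply_ne _ hij]; linarith [hqg i j hij]
  · rw [hQ]; ext i j; fin_cases i <;> fin_cases j <;> simp [transpose_apply]
  · rw [hQ']; ext i j; fin_cases i <;> fin_cases j <;> simp [transpose_apply]
  · intro i
    have e1 : (X * Q * Xᵀ) i i = (c2 / c1 * y i) ^ 2 + y i ^ 2 + z i ^ 2
      - 2 * (ν * (c1 ^ 2 + c2 ^ 2) * (c1 + a) / c1 * y i + z i * D2)
      - (κ * a ^ 2 + 2 * κ * (a * c1)) := by
      simp only [mul_apply, Fin.sum_univ_three, hX, hQ, transpose_apply, of_apply, cons_val',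
        cons_val_zero, cons_val_one, cons_val, cons_val_fin_one]
      ring
    rw [e1, ← hh]
    linarith [hq i]
  · intro i
    have e1 : (Y * Q' * Yᵀ) i i = y' i ^ 2 + z' i ^ 2 +
      2 * (y' i * (ν * (c1 ^ 2 + c2 ^ 2 + a * c1)) + z' i * D2)
      - (κ * (c1 ^ 2 + c2 ^ 2) + 2 * κ * (a * c1)) := by
      simp only [mul_apply, Fin.sum_univ_three, hY, hQ', transpose_apply, of_apply, cons_val',
        cons_val_zero, cons_val_one, cons_val, cons_val_fin_one]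
      ring
    rw [e1, ← hν]
    linarith [hg i]

/-- The five-sphere configuration in adapted coordinates. -/
lemma alg5 (p c : Fin 5 → Fin 3 → ℝ) (r δ : Fin 5 → ℝ)
    (H : ∀ i j, i ≠ j → (p i 0 - c j 0) ^ 2 + (p i 1 - c j 1) ^ 2 + (p i 2 - c j 2) ^ 2 = 1)
    (hr0 : 0 < r 0) (hr1 : 0 < r 1) (hr : r 0 + r 1 = 1) (hr' : r 2 + r 3 + r 4 = 1)
    (hp : ∀ k, r 0 * p 0 k + r 1 * p 1 k = r 2 * p 2 k + r 3 * p 3 k + r 4 * p 4 k)
    (hc : ∀ k, r 0 * c 0 k + r 1 * c 1 k = r 2 * c 2 k + r 3 * c 3 k + r 4 * c 4 k)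
    (hδ : ∀ i, (p i 0 - c i 0) ^ 2 + (p i 1 - c i 1) ^ 2 + (p i 2 - c i 2) ^ 2 = 1 + δ i)
    (hδ0 : ∀ i, δ i ≠ 0) (h0 : δ 0 < 0) (h1 : δ 1 < 0)
    (hp1 : p 0 1 = p 1 1) (hp2 : p 0 2 = p 1 2) (hc2 : c 0 2 = c 1 2) : False := by
  obtain ⟨a, ha⟩ : ∃ a, a = p 0 0 - p 1 0 := ⟨_, rfl⟩
  obtain ⟨C0, hC0⟩ : ∃ C0, C0 = c 0 0 - c 1 0 := ⟨_, rfl⟩
  obtain ⟨C1, hC1⟩ : ∃ C1, C1 = c 0 1 - c 1 1 := ⟨_, rfl⟩
  obtain ⟨O, hO⟩ : ∃ O : Fin 3 → ℝ, ∀ k, O k = r 0 * p 0 k + r 1 * p 1 k := ⟨_, fun _ => rfl⟩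
  obtain ⟨O', hO'⟩ : ∃ O' : Fin 3 → ℝ, ∀ k, O' k = r 0 * c 0 k + r 1 * c 1 k :=
    ⟨_, fun _ => rfl⟩
  have hr1' : r 1 = 1 - r 0 := by linarith
  have hχ : a * C0 = -(δ 0 + δ 1) / 2 := by
    have e1 := H 0 1 (by decide)
    have e2 := H 1 0 (by decide)
    have e3 := hδ 0
    have e4 := hδ 1
    rw [hp1, hp2, ] at e1 e3
    rw [hc2] at e2 e3
    rw [ha, hC0]
    linear_combination (1 / 2) * e1 + (1 / 2) * e2 - (1 / 2) * e3 - (1 / 2) * e4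
  have hs : 0 < a * C0 := by rw [hχ]; linarith
  have hC0' : C0 ≠ 0 := by rintro h; rw [h] at hs; simp at hs
  have ha' : a ≠ 0 := by rintro h; rw [h] at hs; simp at hs
  have hκ : 0 < r 0 * r 1 := mul_pos hr0 hr1
  -- orthogonality of the remaining points to the two axes
  have eP : ∀ i k : Fin 5, i ≠ 0 → i ≠ 1 → k ≠ 0 → k ≠ 1 →
      (p i 0 - p k 0) * C0 + (p i 1 - p k 1) * C1 = 0 := by
    intro i k hi0 hi1 hk0 hk1
    have e1 := H i 0 hi0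
    have e2 := H i 1 hi1
    have e3 := H k 0 hk0
    have e4 := H k 1 hk1
    rw [hc2] at e1 e3
    rw [hC0, hC1]
    linear_combination (-1 / 2) * (e1 - e2 - e3 + e4)
  have eC : ∀ j k : Fin 5, j ≠ 0 → j ≠ 1 → k ≠ 0 → k ≠ 1 →
      (c j 0 - c k 0) * a = 0 := by
    intro j k hj0 hj1 hk0 hk1
    have e1 := H 0 j hj0.symm
    have e2 := H 1 j hj1.symm
    have e3 := H 0 k hk0.symm
    have e4 := H 1 k hk1.symm
    rw [hp1, hp2] at e1 e3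
    rw [ha]
    linear_combination (-1 / 2) * (e1 - e2 - e3 + e4)
  have hqC : ∀ i : Fin 5, i ≠ 0 → i ≠ 1 → (p i 0 - O 0) * C0 + (p i 1 - O 1) * C1 = 0 := by
    intro i hi0 hi1
    have e2 := eP i 2 hi0 hi1 (by decide) (by decide)
    have e3 := eP i 3 hi0 hi1 (by decide) (by decide)
    have e4 := eP i 4 hi0 hi1 (by decide) (by decide)
    rw [hO, hO]
    linear_combination r 2 * e2 + r 3 * e3 + r 4 * e4 - (p i 0 * C0 + p i 1 * C1) * hr'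
      - C0 * hp 0 - C1 * hp 1
  have hgP : ∀ j : Fin 5, j ≠ 0 → j ≠ 1 → c j 0 - O' 0 = 0 := by
    intro j hj0 hj1
    have e2 := eC j 2 hj0 hj1 (by decide) (by decide)
    have e3 := eC j 3 hj0 hj1 (by decide) (by decide)
    have e4 := eC j 4 hj0 hj1 (by decide) (by decide)
    have : (c j 0 - O' 0) * a = 0 := by
      rw [hO']
      linear_combination r 2 * e2 + r 3 * e3 + r 4 * e4 - (c j 0 * a) * hr' - a * hc 0
    exact (mul_eq_zero.1 this).resolve_right ha'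
  -- coordinates of the four special points
  have p00 : p 0 0 = O 0 + r 1 * a := by rw [hO, ha]; linear_combination (-(p 0 0)) * hr
  have p01 : p 0 1 = O 1 := by rw [hO, hp1]; linear_combination (-(p 1 1)) * hr
  have p02 : p 0 2 = O 2 := by rw [hO, hp2]; linear_combination (-(p 1 2)) * hr
  have p10 : p 1 0 = O 0 - r 0 * a := by rw [hO, ha]; linear_combination (-(p 1 0)) * hr
  have p11 : p 1 1 = O 1 := by rw [← hp1]; exact p01
  have p12 : p 1 2 = O 2 := by rw [← hp2]; exact p02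
  have c00 : c 0 0 = O' 0 + r 1 * C0 := by rw [hO', hC0]; linear_combination (-(c 0 0)) * hr
  have c01 : c 0 1 = O' 1 + r 1 * C1 := by rw [hO', hC1]; linear_combination (-(c 0 1)) * hr
  have c02 : c 0 2 = O' 2 := by rw [hO', hc2]; linear_combination (-(c 1 2)) * hr
  have c10 : c 1 0 = O' 0 - r 0 * C0 := by rw [hO', hC0]; linear_combination (-(c 1 0)) * hr
  have c11 : c 1 1 = O' 1 - r 0 * C1 := by rw [hO', hC1]; linear_combination (-(c 1 1)) * hr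
  have c12 : c 1 2 = O' 2 := by rw [← hc2]; exact c02
  obtain ⟨D, hD⟩ : ∃ D : Fin 3 → ℝ, ∀ k, D k = O' k - O k := ⟨_, fun _ => rfl⟩
  have hO'D : ∀ k, O' k = O k + D k := fun k => by rw [hD]; ring
  have hD0 : D 0 = -((r 0 - r 1) / 2) * a := by
    have e1 := H 0 2 (by decide)
    have e2 := H 1 2 (by decide)
    have e3 := hgP 2 (by decide) (by decide)
    have e4 : c 2 0 = O' 0 := by linarith
    rw [p00, p01, p02, e4, hO'D 0] at e1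
    rw [p10, p11, p12, e4, hO'D 0] at e2
    have e5 : D 0 * a = -((r 0 - r 1) / 2) * a * a := by
      rw [hr1'] at e1 ⊢
      linear_combination (-1 / 2) * (e1 - e2)
    exact mul_right_cancel₀ ha' e5
  have hDC : C0 * D 0 + C1 * D 1 = ((r 0 - r 1) / 2) * (C0 ^ 2 + C1 ^ 2) := by
    have e1 := H 2 0 (by decide)
    have e2 := H 2 1 (by decide)
    have e3 := hqC 2 (by decide) (by decide)
    rw [c00, c01, c02, hO'D 0, hO'D 1] at e1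
    rw [c10, c11, c12, hO'D 0, hO'D 1] at e2
    rw [hr1'] at e1 ⊢
    linear_combination (1 / 2) * (e1 - e2) + e3
  have hΔ : r 0 * r 1 * (a ^ 2 + C0 ^ 2 + C1 ^ 2) + 2 * (r 0 * r 1) * (a * C0) + D 0 ^ 2 + D 1 ^ 2
      + D 2 ^ 2 = 1 := by
    have e1 := H 0 1 (by decide)
    rw [p00, p01, p02, c10, c11, c12, hO'D 0, hO'D 1, hO'D 2] at e1
    linear_combination e1 + 2 * r 1 * a * hD0 + 2 * r 0 * hDC
  have hq : ∀ i : Fin 5, i ≠ 0 → i ≠ 1 → (p i 0 - O 0) ^ 2 + (p i 1 - O 1) ^ 2 + (p i 2 - O 2) ^ 2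
      - 2 * ((p i 0 - O 0) * D 0 + (p i 1 - O 1) * D 1 + (p i 2 - O 2) * D 2)
      = r 0 * r 1 * a ^ 2 + 2 * (r 0 * r 1) * (a * C0) := by
    intro i hi0 hi1
    have e1 := H i 0 hi0
    have e3 := hqC i hi0 hi1
    rw [c00, c01, c02, hO'D 0, hO'D 1, hO'D 2] at e1
    linear_combination e1 + 2 * r 1 * e3 - 2 * r 1 * hDC - hΔ
  have hg : ∀ j : Fin 5, j ≠ 0 → j ≠ 1 → (c j 1 - O' 1) ^ 2 + (c j 2 - O' 2) ^ 2
      + 2 * ((c j 1 - O' 1) * D 1 + (c j 2 - O' 2) * D 2)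
      = r 0 * r 1 * (C0 ^ 2 + C1 ^ 2) + 2 * (r 0 * r 1) * (a * C0) := by
    intro j hj0 hj1
    have e1 := H 0 j hj0.symm
    have e3 := hgP j hj0 hj1
    have e4 : c j 0 = O' 0 := by linarith
    rw [p00, p01, p02, e4, hO'D 0] at e1
    rw [hO'D 1, hO'D 2]
    linear_combination e1 + 2 * r 1 * a * hD0 - hΔ
  have hqg : ∀ i j : Fin 5, i ≠ 0 → i ≠ 1 → j ≠ 0 → j ≠ 1 → ∀ t : ℝ,
      (p i 0 - c j 0) ^ 2 + (p i 1 - c j 1) ^ 2 + (p i 2 - c j 2) ^ 2 = 1 + t →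
      2 * ((p i 1 - O 1) * (c j 1 - O' 1) + (p i 2 - O 2) * (c j 2 - O' 2))
      = 2 * (r 0 * r 1) * (a * C0) - t := by
    intro i j hi0 hi1 hj0 hj1 t e1
    have e2 := hq i hi0 hi1
    have e3 := hg j hj0 hj1
    have e4 : c j 0 = O' 0 := by linarith [hgP j hj0 hj1]
    rw [e4, hO'D 0] at e1
    rw [hO'D 1, hO'D 2] at e3 ⊢
    linear_combination e2 + e3 + hΔ - e1
  have hι0 : ∀ i : Fin 3, (![2, 3, 4] : Fin 3 → Fin 5) i ≠ 0 := by decide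
  have hι1 : ∀ i : Fin 3, (![2, 3, 4] : Fin 3 → Fin 5) i ≠ 1 := by decide
  have hιi : ∀ i j : Fin 3, i ≠ j → (![2, 3, 4] : Fin 3 → Fin 5) i ≠ (![2, 3, 4] : Fin 3 → Fin 5) j := by
    decide
  have hx : ∀ i : Fin 5, i ≠ 0 → i ≠ 1 → p i 0 - O 0 = -(C1 / C0 * (p i 1 - O 1)) := by
    intro i hi0 hi1
    have e3 := hqC i hi0 hi1
    field_simp
    linear_combination e3
  refine core (fun i => p ((![2, 3, 4] : Fin 3 → Fin 5) i) 1 - O 1)
    (fun i => p ((![2, 3, 4] : Fin 3 → Fin 5) i) 2 - O 2)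
    (fun i => c ((![2, 3, 4] : Fin 3 → Fin 5) i) 1 - O' 1)
    (fun i => c ((![2, 3, 4] : Fin 3 → Fin 5) i) 2 - O' 2)
    (fun i => δ ((![2, 3, 4] : Fin 3 → Fin 5) i)) a C0 C1 (r 0 * r 1) (D 0) (D 1) (D 2)
    ((r 0 - r 1) / 2) hs hκ hD0 hDC ?_ ?_ ?_ ?_ ?_
  · intro i
    have := hq _ (hι0 i) (hι1 i)
    rw [hx _ (hι0 i) (hι1 i)] at this
    linear_combination this
  · intro j
    exact hg _ (hι0 j) (hι1 j)
  · intro i j hij
    have := hqg _ _ (hι0 i) (hι1 i) (hι0 j) (hι1 j) 0 (by rw [add_zero]; exact H _ _ (hιi i j hij))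
    linear_combination this
  · intro i
    exact hqg _ _ (hι0 i) (hι1 i) (hι0 i) (hι1 i) _ (hδ _)
  · intro i
    exact hδ0 _

end Pool.Agent.TH835.Maehara
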