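import Mathlib
import Pool.Agent.TH835.MaeAlg

set_option autoImplicit false

namespace Pool.Agent.TH835.Maehara

open Finset

abbrev E := EuclideanSpace ℝ (Fin 3)

/-- The affine dependency of the points. -/
lemma dep (p c : Fin 5 → E) (δ : Fin 5 → ℝ) (H : ∀ i j, i ≠ j → ‖p i - c j‖ ^ 2 = 1)
    (hδ : ∀ i, ‖p i - c i‖ ^ 2 = 1 + δ i) (hδ0 : ∀ i, δ i ≠ 0) :
    (∑ i, (δ i)⁻¹ = 0) ∧ (∑ i, (δ i)⁻¹ • p i = 0) ∧ (∑ i, (δ i)⁻¹ * ‖p i‖ ^ 2 = 1) := by
  let f : (Fin 5 → ℝ) →ₗ[ℝ] ℝ × E :=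
    LinearMap.prod (∑ i, LinearMap.proj i) (∑ i, (LinearMap.proj i).smulRight (p i))
  have hf1 : ∀ u, (f u).1 = ∑ i, u i := by intro u; simp [f]
  have hf2 : ∀ u, (f u).2 = ∑ i, u i • p i := by intro u; simp [f]
  have hker : LinearMap.ker f ≠ ⊥ := by
    apply LinearMap.ker_ne_bot_of_finrank_lt
    simp
  obtain ⟨u, hu, hu0⟩ := Submodule.exists_mem_ne_zero_of_ne_bot hker
  rw [LinearMap.mem_ker] at hu
  have h1 : ∑ i, u i = 0 := by rw [← hf1, hu]; rfl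
  have h2 : ∑ i, u i • p i = 0 := by rw [← hf2, hu]; rfl
  set κ := ∑ i, u i * ‖p i‖ ^ 2 with hκ
  have h3 : ∀ j, u j * δ j = κ := by
    intro j
    have e1 : ∑ i, u i * ‖p i - c j‖ ^ 2 = κ := by
      have : ∀ i, u i * ‖p i - c j‖ ^ 2 =
          u i * ‖p i‖ ^ 2 - 2 * inner ℝ (u i • p i) (c j) + u i * ‖c j‖ ^ 2 := by
        intro i
        rw [norm_sub_sq_real, inner_smul_left]
        simp
        ring
      simp_rw [this]
      rw [sum_add_distrib, sum_sub_distrib, ← mul_sum, ← sum_inner, h2, ← sum_mul, h1]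
      simp [hκ]
    have e2 : ∑ i, u i * ‖p i - c j‖ ^ 2 = u j * δ j := by
      have : ∀ i, u i * ‖p i - c j‖ ^ 2 = u i + (if i = j then u j * δ j else 0) := by
        intro i
        by_cases hij : i = j
        · subst hij; rw [hδ]; simp; ring
        · rw [H i j hij]; simp [hij]
      simp_rw [this]
      rw [sum_add_distrib, h1]
      simp
    rw [← e2, e1]
  have hκ0 : κ ≠ 0 := by
    intro h0
    apply hu0
    funext j
    have := h3 j
    rw [h0] at this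
    exact (mul_eq_zero.1 this).resolve_right (hδ0 j)
  have h4 : ∀ j, (δ j)⁻¹ = u j / κ := by
    intro j
    have hd := hδ0 j
    rw [← h3 j]
    have hu : u j ≠ 0 := by
      intro h; rw [← h3 j, h] at hκ0; simp at hκ0
    field_simp
  refine ⟨?_, ?_, ?_⟩
  · simp_rw [h4]; rw [← sum_div, h1]; simp
  · simp_rw [h4, div_eq_inv_mul, mul_smul]; rw [← smul_sum, h2]; simp
  · simp_rw [h4, div_eq_inv_mul, mul_assoc]; rw [← mul_sum, ← hκ]; exact inv_mul_cancel₀ hκ0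

/-- Case of one negative power. -/
lemma one_neg (p c : Fin 5 → E) (δ : Fin 5 → ℝ) (H : ∀ i j, i ≠ j → ‖p i - c j‖ ^ 2 = 1)
    (hδ : ∀ i, ‖p i - c i‖ ^ 2 = 1 + δ i) (hδ0 : ∀ i, δ i ≠ 0) (i0 : Fin 5)
    (hpos : ∀ i, i ≠ i0 → 0 < δ i) : False := by
  obtain ⟨h1, h2, h3⟩ := dep p c δ H hδ hδ0
  obtain ⟨_, h2', h3'⟩ := dep c p δ (fun i j hij => by rw [norm_sub_rev]; exact H j i hij.symm)
    (fun i => by rw [norm_sub_rev]; exact hδ i) hδ0
  have key : ∑ i, (δ i)⁻¹ * ‖(p i - p i0) + (c i - c i0)‖ ^ 2 = -1 := by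
    have e : ∀ i, (δ i)⁻¹ * ‖(p i - p i0) + (c i - c i0)‖ ^ 2 =
        2 * ((δ i)⁻¹ * ‖p i‖ ^ 2) - 4 * inner ℝ ((δ i)⁻¹ • p i) (p i0)
        + 2 * ((δ i)⁻¹ * ‖c i‖ ^ 2) - 4 * inner ℝ ((δ i)⁻¹ • c i) (c i0)
        + (δ i)⁻¹ * (2 * ‖p i0‖ ^ 2 + 2 * ‖c i0‖ ^ 2 - ‖p i0 - c i0‖ ^ 2)
        - (δ i)⁻¹ - 1
        + 2 * inner ℝ ((δ i)⁻¹ • p i) (p i0 - c i0)
        - 2 * inner ℝ ((δ i)⁻¹ • c i) (p i0 - c i0) := by
      intro i
      have e1 := parallelogram_law_with_norm ℝ (p i - p i0) (c i - c i0)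
      have e2 : (p i - p i0) - (c i - c i0) = (p i - c i) - (p i0 - c i0) := by abel
      rw [e2] at e1
      have e3 := norm_sub_sq_real (p i - c i) (p i0 - c i0)
      have e4 := norm_sub_sq_real (p i) (p i0)
      have e5 := norm_sub_sq_real (c i) (c i0)
      have e6 := hδ i
      have e7 : inner ℝ (p i - c i) (p i0 - c i0) = inner ℝ (p i) (p i0 - c i0)
        - inner ℝ (c i) (p i0 - c i0) := inner_sub_left _ _ _
      simp only [inner_smul_left, RCLike.conj_to_real]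
      have e8 : (δ i)⁻¹ * δ i = 1 := inv_mul_cancel₀ (hδ0 i)
      have e9 : ‖(p i - p i0) + (c i - c i0)‖ ^ 2 = 2 * ‖p i‖ ^ 2 - 4 * inner ℝ (p i) (p i0)
        + 2 * ‖c i‖ ^ 2 - 4 * inner ℝ (c i) (c i0) + (2 * ‖p i0‖ ^ 2 + 2 * ‖c i0‖ ^ 2
        - ‖p i0 - c i0‖ ^ 2) - 1 - δ i + 2 * inner ℝ (p i) (p i0 - c i0)
        - 2 * inner ℝ (c i) (p i0 - c i0) := by
        nlinarith [e1, e3, e4, e5, e6, e7]
      rw [e9]
      linear_combination -e8
    simp_rw [e]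
    simp only [sum_add_distrib, sum_sub_distrib, ← mul_sum, ← sum_inner, ← sum_mul, h1, h2, h3,
      h2', h3']
    simp
    norm_num
  have hnn : 0 ≤ ∑ i, (δ i)⁻¹ * ‖(p i - p i0) + (c i - c i0)‖ ^ 2 := by
    apply sum_nonneg
    intro i _
    by_cases hi : i = i0
    · subst hi; simp
    · have := hpos i hi
      positivity
  linarith

/-- Case of two negative powers. -/
lemma two_neg (p c : Fin 5 → E) (δ : Fin 5 → ℝ) (H : ∀ i j, i ≠ j → ‖p i - c j‖ ^ 2 = 1)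
    (hδ : ∀ i, ‖p i - c i‖ ^ 2 = 1 + δ i) (hδ0 : ∀ i, δ i ≠ 0) (h0 : δ 0 < 0) (h1 : δ 1 < 0) :
    False := by
  obtain ⟨hv, hp, _⟩ := dep p c δ H hδ hδ0
  obtain ⟨_, hc, _⟩ := dep c p δ (fun i j hij => by rw [norm_sub_rev]; exact H j i hij.symm)
    (fun i => by rw [norm_sub_rev]; exact hδ i) hδ0
  -- adapted orthonormal frame
  have hfin : Module.finrank ℝ E = Fintype.card (Fin 3) := by simp
  let b := InnerProductSpace.gramSchmidtOrthonormalBasis hfin ![p 0 - p 1, c 0 - c 1, 0]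
  have b1 : b.repr (p 0 - p 1) 1 = 0 :=
    InnerProductSpace.gramSchmidtOrthonormalBasis_inv_triangular' hfin
      ![p 0 - p 1, c 0 - c 1, 0] (i := 0) (j := 1) (by decide)
  have b2 : b.repr (p 0 - p 1) 2 = 0 :=
    InnerProductSpace.gramSchmidtOrthonormalBasis_inv_triangular' hfin
      ![p 0 - p 1, c 0 - c 1, 0] (i := 0) (j := 2) (by decide)
  have b3 : b.repr (c 0 - c 1) 2 = 0 :=
    InnerProductSpace.gramSchmidtOrthonormalBasis_inv_triangular' hfin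
      ![p 0 - p 1, c 0 - c 1, 0] (i := 1) (j := 2) (by decide)
  have hnorm : ∀ x y : E, ‖x - y‖ ^ 2 = (b.repr x 0 - b.repr y 0) ^ 2
      + (b.repr x 1 - b.repr y 1) ^ 2 + (b.repr x 2 - b.repr y 2) ^ 2 := by
    intro x y
    rw [← b.repr.norm_map (x - y), map_sub, EuclideanSpace.norm_sq_eq, Fin.sum_univ_three]
    simp
  set s := (δ 0)⁻¹ + (δ 1)⁻¹ with hs
  have i0 : (δ 0)⁻¹ < 0 := inv_lt_zero.2 h0
  have i1 : (δ 1)⁻¹ < 0 := inv_lt_zero.2 h1
  have hsneg : s < 0 := by rw [hs]; linarith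
  have hs0 : s ≠ 0 := hsneg.ne
  rw [Fin.sum_univ_five] at hv hp hc
  have comp : ∀ x : Fin 5 → E, (δ 0)⁻¹ • x 0 + (δ 1)⁻¹ • x 1 + (δ 2)⁻¹ • x 2 + (δ 3)⁻¹ • x 3
      + (δ 4)⁻¹ • x 4 = 0 → ∀ k, (δ 0)⁻¹ * b.repr (x 0) k + (δ 1)⁻¹ * b.repr (x 1) k
      + (δ 2)⁻¹ * b.repr (x 2) k + (δ 3)⁻¹ * b.repr (x 3) k + (δ 4)⁻¹ * b.repr (x 4) k = 0 := by
    intro x hx k
    have := congrArg (fun y => b.repr y k) hx
    simpa using this
  refine alg5 (fun i k => b.repr (p i) k) (fun i k => b.repr (c i) k)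
    ![(δ 0)⁻¹ / s, (δ 1)⁻¹ / s, -(δ 2)⁻¹ / s, -(δ 3)⁻¹ / s, -(δ 4)⁻¹ / s] δ
    ?_ ?_ ?_ ?_ ?_ ?_ ?_ ?_ hδ0 h0 h1 ?_ ?_ ?_
  · intro i j hij; rw [← hnorm]; exact H i j hij
  · simp; exact div_pos_of_neg_of_neg i0 hsneg
  · simp; exact div_pos_of_neg_of_neg i1 hsneg
  · simp; rw [← add_div, ← hs]; exact div_self hs0
  · simp only [Matrix.cons_val]
    rw [← add_div, ← add_div, div_eq_one_iff_eq hs0, hs]
    linarith
  · intro k
    have := comp p hp k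
    simp only [Matrix.cons_val_zero, Matrix.cons_val_one, Matrix.cons_val]
    linear_combination (1 / s) * this
  · intro k
    have := comp c hc k
    simp only [Matrix.cons_val_zero, Matrix.cons_val_one, Matrix.cons_val]
    linear_combination (1 / s) * this
  · intro i; rw [← hnorm]; exact hδ i
  · have := b1; simp only [map_sub, PiLp.sub_apply] at this; linarith
  · have := b2; simp only [map_sub, PiLp.sub_apply] at this; linarith
  · have := b3; simp only [map_sub, PiLp.sub_apply] at this; linarith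

lemma exists_perm (i j : Fin 5) (hij : i ≠ j) :
    ∃ σ : Equiv.Perm (Fin 5), σ 0 = i ∧ σ 1 = j := by
  refine ⟨Equiv.swap i (Equiv.swap 0 i 0) * Equiv.swap 0 i * Equiv.swap 1 (Equiv.swap 0 i j), ?_, ?_⟩
  · revert i j; decide
  · revert i j; decide

/-- Five unit spheres, any four with a common point. -/
theorem five (p c : Fin 5 → E) (H : ∀ i j, i ≠ j → dist (p i) (c j) = 1) :
    ∃ i, dist (p i) (c i) = 1 := by
  by_contra hcon
  push Not at hcon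
  have H' : ∀ i j, i ≠ j → ‖p i - c j‖ ^ 2 = 1 := by
    intro i j hij; rw [← dist_eq_norm, H i j hij]; norm_num
  obtain ⟨δ, hδ⟩ : ∃ δ : Fin 5 → ℝ, ∀ i, ‖p i - c i‖ ^ 2 = 1 + δ i :=
    ⟨fun i => ‖p i - c i‖ ^ 2 - 1, fun i => by ring⟩
  have hδ0 : ∀ i, δ i ≠ 0 := by
    intro i h
    apply hcon i
    have := hδ i
    rw [h, add_zero, ← dist_eq_norm] at this
    exact (pow_eq_one_iff_of_nonneg dist_nonneg two_ne_zero).1 this
  by_cases h2 : ∃ i j, i ≠ j ∧ δ i < 0 ∧ δ j < 0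
  · obtain ⟨i, j, hij, hi, hj⟩ := h2
    obtain ⟨σ, h0, h1⟩ := exists_perm i j hij
    refine two_neg (p ∘ σ) (c ∘ σ) (δ ∘ σ) ?_ ?_ ?_ ?_ ?_
    · intro a b hab; exact H' _ _ (fun h => hab (σ.injective h))
    · intro a; exact hδ _
    · intro a; exact hδ0 _
    · simp [h0, hi]
    · simp [h1, hj]
  · push Not at h2
    by_cases h1 : ∃ i, δ i < 0
    · obtain ⟨i0, hi0⟩ := h1
      refine one_neg p c δ H' hδ hδ0 i0 ?_
      intro i hi
      exact lt_of_le_of_ne (h2 i0 i hi.symm hi0) (hδ0 i).symm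
    · push Not at h1
      refine one_neg p c δ H' hδ hδ0 0 ?_
      intro i _
      exact lt_of_le_of_ne (h1 i) (hδ0 i).symm

end Pool.Agent.TH835.Maehara
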